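import Pool.Agent.H41.Mc3

set_option autoImplicit false

open Pool.Agent.H41.Mc

/-- For every `d ≥ 2`, every prime `p > d` and every finite field `F` over `𝔽_p`:
(a) the extension inequality holds with the constant `C_{d,q}`; (b) it has a maximizer;
(c) a non-zero `f` is a maximizer iff `|f|` is constant. -/
theorem Pool.Agent.Results.MP_110370_an.Sharp.result :
    ∀ (d p : ℕ) [Fact p.Prime], 2 ≤ d → d < p →
      ∀ (F : Type) [Field F] [Fintype F] [Algebra (ZMod p) F],
        (∀ f : F → ℂ, normOut d (ext p d f) ≤ Cst d (Fintype.card F) * normIn f) ∧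
        (∃ f : F → ℂ, f ≠ 0 ∧ normOut d (ext p d f) = Cst d (Fintype.card F) * normIn f) ∧
        (∀ f : F → ℂ, f ≠ 0 →
          (normOut d (ext p d f) = Cst d (Fintype.card F) * normIn f ↔
            ∃ c : ℝ, ∀ t, ‖f t‖ = c)) := by
  intro d p _ hd hp F _ _ _
  refine ⟨fun f => (main d p hd hp F f).1, ⟨fun _ => 1, ?_, (main d p hd hp F _).2.2 ⟨1, by simp⟩⟩,
    fun f _ => (main d p hd hp F f).2⟩
  intro h
  simpa using congrFun h 0
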